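import Pool.Agent.Helper20.Mono.GoalsL

/-!
# The multiplicities of the link of an axis (packet L2)
-/

namespace Mono

open Finset

namespace Helper32

variable {n : ℕ}

/-- The projection along the `k`-th axis as an additive map. -/
def piK (k : Fin n) : (Fin n → ℤ) →+ (Fin n → ℤ) where
  toFun v := Function.update v k 0
  map_zero' := by
    funext i
    by_cases h : i = k
    · subst h; simp
    · simp
  map_add' := by
    intro x y
    funext i
    by_cases h : i = k
    · subst h; simp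
    · simp [Function.update_of_ne h]

theorem piK_apply (k : Fin n) (v : Fin n → ℤ) : piK k v = Function.update v k 0 := rfl

theorem piK_same (k : Fin n) (v : Fin n → ℤ) : piK k v k = 0 := by simp [piK_apply]

theorem piK_ne (k : Fin n) (v : Fin n → ℤ) {i : Fin n} (h : i ≠ k) : piK k v i = v i := by
  simp [piK_apply, Function.update_of_ne h]

theorem piK_of_zero (k : Fin n) {v : Fin n → ℤ} (h : v k = 0) : piK k v = v := by
  funext i
  by_cases hi : i = k
  · subst hi; rw [piK_same, h]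
  · rw [piK_ne k v hi]

theorem piK_single (k : Fin n) : piK k (Pi.single k 1) = 0 := by
  funext i
  by_cases hi : i = k
  · subst hi; rw [piK_same]; rfl
  · rw [piK_ne k _ hi]; simp [hi]

theorem eq_piK_add (k : Fin n) (v : Fin n → ℤ) : v = piK k v + v k • Pi.single k 1 := by
  funext i
  by_cases hi : i = k
  · subst hi
    rw [Pi.add_apply, piK_same]
    simp
  · rw [Pi.add_apply, piK_ne k _ hi]
    simp [hi]

theorem dot_piK (k : Fin n) (c v : Fin n → ℤ) : c ⬝ᵥ v = c ⬝ᵥ piK k v + c k * v k := by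
  conv_lhs => rw [eq_piK_add k v]
  rw [dotProduct_add, dotProduct_smul, dotProduct_single]
  simp [mul_comm]

theorem piK_dot (k : Fin n) (c v : Fin n → ℤ) : piK k c ⬝ᵥ v = c ⬝ᵥ piK k v := by
  have h1 := dot_piK k v (piK k c)
  have h2 := dot_piK k (piK k v) c
  have h3 := dot_piK k (piK k c) v
  have h4 := dot_piK k c v
  have h5 : piK k v ⬝ᵥ c = c ⬝ᵥ piK k v := dotProduct_comm _ _
  rw [piK_same, zero_mul, add_zero] at h2 h3
  rw [h3, dotProduct_comm, ← h2, dotProduct_comm]


theorem mem_projK {k : Fin n} {τ : Finset (Fin n → ℤ)} {x : Fin n → ℤ} :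
    x ∈ projK k τ ↔ ∃ u ∈ τ, piK k u = x := by
  simp [projK, piK_apply]

theorem projK_eq (k : Fin n) (τ : Finset (Fin n → ℤ)) : projK k τ = τ.image (piK k) := rfl

theorem projK_mono {k : Fin n} {τ ρ : Finset (Fin n → ℤ)} (h : τ ⊆ ρ) :
    projK k τ ⊆ projK k ρ := Finset.image_subset_image h

/-- index comparison -/
theorem idx_proj (k : Fin n) (B : Set (Fin n → ℤ)) :
    idx (B ∪ {Pi.single k 1}) = idx (piK k '' B) := by
  set e : Fin n → ℤ := Pi.single k 1 with he
  set D' := AddSubgroup.closure (piK k '' B) with hD'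
  set D := AddSubgroup.closure (B ∪ {e}) with hD
  have heD : e ∈ D := AddSubgroup.subset_closure (Or.inr rfl)
  have hD'zero : ∀ x ∈ D', x k = 0 := by
    intro x hx
    have : D' ≤ AddMonoidHom.ker (Pi.evalAddMonoidHom (fun _ : Fin n => ℤ) k) := by
      rw [hD', AddSubgroup.closure_le]
      rintro _ ⟨u, _, rfl⟩
      exact piK_same k u
    exact this hx
  have h1 : D = D'.comap (piK k) := by
    apply le_antisymm
    · rw [hD, AddSubgroup.closure_le]
      rintro x (hx | hx)
      · exact AddSubgroup.subset_closure ⟨x, hx, rfl⟩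
      · rw [Set.mem_singleton_iff] at hx
        subst hx
        show piK k e ∈ D'
        rw [he, piK_single]
        exact zero_mem _
    · have h2 : D' ≤ D := by
        rw [hD', AddSubgroup.closure_le]
        rintro _ ⟨u, hu, rfl⟩
        have h3 : piK k u = u - u k • e := by
          rw [eq_sub_iff_add_eq]
          exact (eq_piK_add k u).symm
        rw [h3]
        exact D.sub_mem (AddSubgroup.subset_closure (Or.inl hu)) (D.zsmul_mem heD _)
      intro x hx
      rw [eq_piK_add k x]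
      exact D.add_mem (h2 hx) (D.zsmul_mem heD _)
  have h2 : sat (B ∪ {e}) = (sat (piK k '' B)).comap (piK k) := by
    ext x
    constructor
    · rintro ⟨j, hj, hx⟩
      refine ⟨j, hj, ?_⟩
      change j • x ∈ D at hx
      rw [h1] at hx
      rw [← map_zsmul]
      exact hx
    · rintro ⟨j, hj, hx⟩
      refine ⟨j, hj, ?_⟩
      change j • x ∈ D
      rw [h1]
      rw [← map_zsmul] at hx
      exact hx
  have h3 : (sat (B ∪ {e})).map (piK k) = sat (piK k '' B) := by
    rw [h2]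
    ext x
    constructor
    · rintro ⟨y, hy, rfl⟩
      exact hy
    · intro hx
      have hxk : x k = 0 := by
        obtain ⟨j, hj, hx⟩ := hx
        have := hD'zero _ hx
        simpa [hj] using this
      refine ⟨x, ?_, piK_of_zero k hxk⟩
      show piK k x ∈ sat (piK k '' B)
      rw [piK_of_zero k hxk]
      exact hx
  unfold idx
  rw [← hD, h1, AddSubgroup.relIndex_comap, h3]

theorem toR_single (i : Fin n) : toR (Pi.single i (1 : ℤ)) = Pi.single i 1 := by
  funext j
  by_cases h : j = i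
  · subst h; simp [toR]
  · simp [toR, h]

end Helper32

open Helper32

theorem linkSum : LinkSum := by
  intro n A Z Φ Ψ k hT hkZ hface hpos hinj hΨ hmx m
  set e : Fin n → ℤ := Pi.single k 1 with he
  obtain ⟨-, -, -, -, hvert, ⟨-, hZsingle, -⟩, -⟩ := hT
  obtain ⟨-, -, -, hdis, -, -, -⟩ := hΨ
  have hek : e k = 1 := by simp [he]
  have hFZ : ∀ F ∈ Φ.mx, e ∈ F → ∀ z ∈ F, z ∈ Z → z = e := by
    intro F hF heF z hzF hzZ
    obtain ⟨i, rfl⟩ := hZsingle z hzZ
    by_cases hik : i = k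
    · rw [hik]
    · exfalso
      have h1 := hpos F hF heF i hik
      have h2 := psi_toR Z (Φ.mx_indep F hF) hzF
      rw [toR_single, if_pos hzZ] at h2
      rw [h2] at h1
      exact lt_irrefl _ h1
  have hmem : ∀ τ, τ ∈ Φ.faces → e ∈ τ → (∀ u ∈ τ, u ≠ e → Φ.IsFace {u, e} ∧ u ∈ A ∧ u ∉ Z) := by
    intro τ hτ heτ u hu hue
    rw [Φ.mem_faces] at hτ
    obtain ⟨F, hF, hs⟩ := hτ
    have h1 : u ∉ Z := fun hz => hue (hFZ F hF (hs heτ) u (hs hu) hz)
    refine ⟨⟨F, hF, ?_⟩, ?_, h1⟩
    · intro x hx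
      rw [mem_insert, mem_singleton] at hx
      rcases hx with rfl | rfl
      · exact hs hu
      · exact hs heτ
    · have h2 := Φ.mx_sub F hF (hs hu)
      rw [hvert, mem_union] at h2
      exact h2.resolve_right h1
  have hinj' : ∀ τ ∈ Φ.faces, e ∈ τ → ∀ τ' ∈ Φ.faces, e ∈ τ' → ∀ u ∈ τ.erase e,
      ∀ u' ∈ τ'.erase e, piK k u = piK k u' → u = u' := by
    intro τ hτ heτ τ' hτ' heτ' u hu u' hu' h
    rw [mem_erase] at hu hu'
    exact hinj u u' (hmem τ hτ heτ u hu.2 hu.1).1 (hmem τ' hτ' heτ' u' hu'.2 hu'.1).1 h hu.1 hu'.1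
  have hcard : ∀ τ ∈ Φ.faces, e ∈ τ → τ.card = (projK k (τ.erase e)).card + 1 := by
    intro τ hτ heτ
    rw [projK_eq, Finset.card_image_of_injOn, Finset.card_erase_add_one heτ]
    intro u hu u' hu' h
    exact hinj' τ hτ heτ τ hτ heτ u hu u' hu' h
  have hcs : ∀ τ : Finset (Fin n → ℤ), e ∈ τ → (cs τ).card = (cs (projK k (τ.erase e))).card + 1 := by
    intro τ heτ
    have h1 : k ∉ cs (projK k (τ.erase e)) := by
      simp only [cs, mem_filter, mem_univ, true_and, not_exists, not_and, not_not]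
      intro u hu
      rw [mem_projK] at hu
      obtain ⟨v, _, rfl⟩ := hu
      exact piK_same k v
    have h2 : cs τ = insert k (cs (projK k (τ.erase e))) := by
      ext i
      simp only [cs, mem_filter, mem_univ, true_and, mem_insert]
      constructor
      · rintro ⟨u, hu, hui⟩
        by_cases hik : i = k
        · exact Or.inl hik
        · right
          refine ⟨piK k u, mem_projK.2 ⟨u, mem_erase.2 ⟨?_, hu⟩, rfl⟩, ?_⟩
          · rintro rfl
            exact hui (by simp [he, hik])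
          · rwa [piK_ne k u hik]
      · rintro (rfl | ⟨u, hu, hui⟩)
        · exact ⟨e, heτ, by rw [hek]; exact one_ne_zero⟩
        · rw [mem_projK] at hu
          obtain ⟨v, hv, rfl⟩ := hu
          by_cases hik : i = k
          · exact absurd (by rw [hik]; exact piK_same k v) hui
          · rw [piK_ne k v hik] at hui
            exact ⟨v, mem_of_mem_erase hv, hui⟩
    rw [h2, card_insert_of_notMem h1]
  have hsd : ∀ τ ∈ Φ.faces, e ∈ τ → τ \ Z = τ.erase e ∧ τ ∩ Z = {e} := by
    intro τ hτ heτ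
    constructor
    · ext u
      rw [mem_sdiff, mem_erase]
      constructor
      · rintro ⟨h1, h2⟩
        exact ⟨fun h => h2 (h ▸ hkZ), h1⟩
      · rintro ⟨h1, h2⟩
        exact ⟨h2, (hmem τ hτ heτ u h2 h1).2.2⟩
    · ext u
      rw [mem_inter, mem_singleton]
      constructor
      · rintro ⟨h1, h2⟩
        by_contra h
        exact (hmem τ hτ heτ u h1 h).2.2 h2
      · rintro rfl
        exact ⟨heτ, hkZ⟩
  have hlat : ∀ τ ∈ Φ.faces, e ∈ τ → latDistZ Z τ = latDist (projK k (τ.erase e)) := by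
    intro τ hτ heτ
    obtain ⟨h1, h2⟩ := hsd τ hτ heτ
    unfold latDistZ latDist
    congr 1
    ext N
    simp only [Set.mem_ofPred_eq]
    rw [h1, h2]
    refine and_congr_right fun _ => ?_
    constructor
    · rintro ⟨c, hc1, hc2⟩
      refine ⟨c, ?_⟩
      intro u hu
      rw [mem_projK] at hu
      obtain ⟨v, hv, rfl⟩ := hu
      have h3 := hc2 e (mem_singleton_self e)
      rw [he, dotProduct_single, mul_one] at h3
      have h4 := hc1 v hv
      rw [dot_piK k c v, h3, zero_mul, add_zero] at h4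
      exact h4
    · rintro ⟨c, hc⟩
      refine ⟨piK k c, ?_, ?_⟩
      · intro u hu
        have h3 := hc (piK k u) (mem_projK.2 ⟨u, hu, rfl⟩)
        rw [piK_dot]
        exact h3
      · intro u hu
        rw [mem_singleton] at hu
        subst hu
        rw [he, dotProduct_single, mul_one]
        exact piK_same k c
  have hvol : ∀ τ ∈ Φ.faces, e ∈ τ → volZ Z τ = vol (projK k (τ.erase e)) := by
    intro τ hτ heτ
    obtain ⟨h1, h2⟩ := hsd τ hτ heτ
    unfold volZ vol
    have h3 : {x | x ∈ τ ∧ x ∈ Z} = ({e} : Set (Fin n → ℤ)) := by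
      ext x
      simp only [Set.mem_ofPred_eq, Set.mem_singleton_iff]
      rw [← mem_inter, h2, mem_singleton]
    rw [h3, h1, idx_proj]
    congr 1
    ext x
    simp only [Set.mem_image, Set.mem_ofPred_eq]
    constructor
    · rintro ⟨_, ⟨u, hu, v, hv, rfl⟩, rfl⟩
      exact ⟨piK k u, mem_projK.2 ⟨u, hu, rfl⟩, piK k v, mem_projK.2 ⟨v, hv, rfl⟩, map_sub _ _ _⟩
    · rintro ⟨a, ha, b, hb, rfl⟩
      rw [mem_projK] at ha hb
      obtain ⟨u, hu, rfl⟩ := ha
      obtain ⟨v, hv, rfl⟩ := hb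
      exact ⟨u - v, ⟨u, hu, v, hv, rfl⟩, map_sub _ _ _⟩
  rw [Finset.mul_sum]
  refine Finset.sum_nbij (fun τ => projK k (τ.erase e)) ?_ ?_ ?_ ?_
  · intro τ hτ
    rw [mem_filter] at hτ ⊢
    obtain ⟨hτ, heτ, hnZ, hc, hm⟩ := hτ
    have hτ' := hτ
    rw [Φ.mem_faces] at hτ'
    obtain ⟨F, hF, hs⟩ := hτ'
    refine ⟨?_, ?_, ?_, ?_, ?_⟩
    · rw [Ψ.mem_faces]
      refine ⟨linkImg k F, ?_, ?_⟩
      · rw [hmx]
        exact mem_image_of_mem _ (mem_filter.2 ⟨hF, hs heτ⟩)
      · exact (projK_mono (erase_subset_erase _ hs)).trans (subset_insert _ _)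
    · obtain ⟨u, hu, huZ⟩ := not_subset.1 hnZ
      exact ⟨piK k u, mem_projK.2 ⟨u, mem_erase.2 ⟨fun h => huZ (h ▸ hkZ), hu⟩, rfl⟩⟩
    · apply projK_mono
      intro u hu
      rw [mem_erase] at hu
      exact (hmem τ hτ heτ u hu.2 hu.1).2.1
    · have h1 := hcard τ hτ heτ
      have h2 := hcs τ heτ
      omega
    · rw [← hlat τ hτ heτ]
      exact hm
  · intro τ₁ h₁ τ₂ h₂ h
    rw [mem_coe, mem_filter] at h₁ h₂
    have h3 : ∀ τ₁ ∈ Φ.faces, e ∈ τ₁ → ∀ τ₂ ∈ Φ.faces, e ∈ τ₂ →
        projK k (τ₁.erase e) = projK k (τ₂.erase e) → τ₁ ⊆ τ₂ := by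
      intro τ₁ hf₁ he₁ τ₂ hf₂ he₂ h u hu
      by_cases hue : u = e
      · rw [hue]; exact he₂
      · have h4 : piK k u ∈ projK k (τ₂.erase e) := by
          rw [← h]
          exact mem_projK.2 ⟨u, mem_erase.2 ⟨hue, hu⟩, rfl⟩
        rw [mem_projK] at h4
        obtain ⟨v, hv, hvu⟩ := h4
        have h5 := hinj' τ₂ hf₂ he₂ τ₁ hf₁ he₁ v hv u (mem_erase.2 ⟨hue, hu⟩) hvu
        rw [← h5]
        exact mem_of_mem_erase hv
    exact Subset.antisymm (h3 τ₁ h₁.1 h₁.2.1 τ₂ h₂.1 h₂.2.1 h)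
      (h3 τ₂ h₂.1 h₂.2.1 τ₁ h₁.1 h₁.2.1 h.symm)
  · intro τ' hτ'
    rw [mem_coe, mem_filter] at hτ'
    obtain ⟨hf, hne, hsub, hc, hm⟩ := hτ'
    rw [Ψ.mem_faces] at hf
    obtain ⟨G, hG, hs⟩ := hf
    rw [hmx, mem_image] at hG
    obtain ⟨F, hF, rfl⟩ := hG
    rw [mem_filter] at hF
    obtain ⟨hF, heF⟩ := hF
    have heτ' : e ∉ τ' := fun h => disjoint_left.1 hdis (hsub h) (mem_singleton_self _)
    set ρ := (F.erase e).filter (fun u => piK k u ∈ τ') with hρ
    have hρF : insert e ρ ⊆ F := by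
      intro x hx
      rw [mem_insert] at hx
      rcases hx with rfl | hx
      · exact heF
      · exact mem_of_mem_erase (mem_filter.1 hx).1
    have heρ : e ∉ ρ := by
      intro h
      exact (mem_erase.1 (mem_filter.1 h).1).1 rfl
    have hτf : insert e ρ ∈ Φ.faces := by
      rw [Φ.mem_faces]
      exact ⟨F, hF, hρF⟩
    have hproj : projK k ((insert e ρ).erase e) = τ' := by
      rw [erase_insert heρ]
      ext x
      rw [mem_projK]
      constructor
      · rintro ⟨u, hu, rfl⟩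
        exact (mem_filter.1 hu).2
      · intro hx
        have h1 := hs hx
        rw [linkImg, mem_insert] at h1
        rcases h1 with h1 | h1
        · rw [h1] at hx
          exact absurd hx heτ'
        · rw [mem_projK] at h1
          obtain ⟨u, hu, rfl⟩ := h1
          exact ⟨u, mem_filter.2 ⟨hu, hx⟩, rfl⟩
    refine ⟨insert e ρ, ?_, hproj⟩
    rw [mem_coe, mem_filter]
    have h1 := hcard (insert e ρ) hτf (mem_insert_self _ _)
    have h2 := hcs (insert e ρ) (mem_insert_self _ _)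
    rw [hproj] at h1 h2
    refine ⟨hτf, mem_insert_self _ _, ?_, by omega, ?_⟩
    · intro h
      obtain ⟨x, hx⟩ := hne
      rw [← hproj, mem_projK] at hx
      obtain ⟨u, hu, -⟩ := hx
      rw [mem_erase] at hu
      exact (hmem _ hτf (mem_insert_self _ _) u hu.2 hu.1).2.2 (h hu.2)
    · rw [hlat _ hτf (mem_insert_self _ _), hproj]
      exact hm
  · intro τ hτ
    rw [mem_filter] at hτ
    obtain ⟨hτ, heτ, hnZ, hc, hm⟩ := hτ
    rw [hvol τ hτ heτ]
    have h1 := hcard τ hτ heτ
    have h2 : τ.card ≤ n := by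
      rw [Φ.mem_faces] at hτ
      obtain ⟨F, hF, hs⟩ := hτ
      have h0 := card_le_card hs
      rw [Φ.mx_card F hF] at h0
      exact h0
    have h3 : 0 < (projK k (τ.erase e)).card := by
      rw [card_pos]
      obtain ⟨u, hu, huZ⟩ := not_subset.1 hnZ
      exact ⟨piK k u, mem_projK.2 ⟨u, mem_erase.2 ⟨fun h => huZ (h ▸ hkZ), hu⟩, rfl⟩⟩
    obtain ⟨c, hc'⟩ : ∃ c, (projK k (τ.erase e)).card = c + 1 := ⟨_, (Nat.succ_pred_eq_of_pos h3).symm⟩
    rw [hc'] at h1 ⊢
    obtain ⟨d, hd⟩ : ∃ d, n = d + (c + 1 + 1) := ⟨n - (c + 1 + 1), by omega⟩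
    have h4 : n - τ.card = d := by omega
    rw [h4, Nat.add_sub_cancel, ← mul_assoc]
    congr 1
    conv_rhs => rw [hd]
    rw [← pow_add, show d + (c + 1 + 1) + c = d + 2 * (c + 1) by ring, pow_add, pow_mul]
    simp

end Mono
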